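import Mathlib

/-!
# The agreement of few-dimensional families and few bits with all sign patterns
-/

set_option autoImplicit false

open Finset

namespace Pool.Agent.Helper56.MP2

private theorem card_split {α : Type} [Fintype α] [DecidableEq α] (p Q : α → Prop)
    [DecidablePred p] [DecidablePred Q] :
    (univ.filter Q).card ≤ (univ.filter fun k => p k).card +
      (univ.filter fun k : {k // ¬ p k} => Q k.1).card := by
  classical
  have h1 : univ.filter Q ⊆ (univ.filter fun k => p k) ∪
      (univ.filter fun k : {k // ¬ p k} => Q k.1).image Subtype.val := by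
    intro k hk
    by_cases hp : p k
    · exact mem_union_left _ (mem_filter.2 ⟨mem_univ _, hp⟩)
    · exact mem_union_right _ (mem_image.2 ⟨⟨k, hp⟩, mem_filter.2 ⟨mem_univ _,
        (mem_filter.1 hk).2⟩, rfl⟩)
  exact (card_le_card h1).trans ((card_union_le _ _).trans
    (Nat.add_le_add_left card_image_le _))

theorem star_bound
    (hag : ∀ {β : Type} [Fintype β] [DecidableEq β] (d B : ℕ),
      64 * (d + B + 1) ≤ Fintype.card β → ∀ {Λ : Type} [Fintype Λ],
      Fintype.card Λ ≤ 16 ^ B → ∀ L : Λ → Submodule ℝ (β → ℝ),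
      (∀ b, Module.finrank ℝ (L b) ≤ d) → ∀ G : (β → Bool) → β → ℝ,
      (∀ τ, ∃ b, G τ ∈ L b) →
      ∑ τ : β → Bool, ((univ.filter fun k => (0 < G τ k ↔ τ k = true)).card : ℝ) ≤
        76 / 100 * Fintype.card β * 2 ^ Fintype.card β)
    {α : Type} [Fintype α] [DecidableEq α] (p : α → Prop) [DecidablePred p] {D : ℕ}
    (φ : Fin D → α → ℝ) {B : ℕ} {Λ : Type} [Fintype Λ] (hΛ : Fintype.card Λ ≤ 16 ^ B)
    (ψ : Λ → α → ℝ) (b : (α → Bool) → Λ) (U : (α → Bool) → α → ℝ)
    (hU : ∀ τ τ' : α → Bool, (∀ k, p k → τ k = τ' k) → U τ = U τ')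
    (c : (α → Bool) → ℝ) (d : (α → Bool) → Fin D → ℝ) (G : (α → Bool) → α → ℝ)
    (hG : ∀ τ k, G τ k = c τ + ∑ l, d τ l * φ l k + ψ (b τ) k + U τ k) :
    ∑ τ : α → Bool, ((univ.filter fun k => (0 < G τ k ↔ τ k = true)).card : ℝ) ≤
      2 ^ Fintype.card α * (76 / 100 * Fintype.card α +
        1 / 4 * ((univ.filter fun k => p k).card : ℝ) + 16 * (D + B + 4)) := by
  classical
  have ht' : (univ.filter fun k => p k).card ≤ Fintype.card α := card_le_univ _
  have hcard : Fintype.card {k // ¬ p k} = Fintype.card α - (univ.filter fun k => p k).card := by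
    rw [Fintype.card_subtype_compl, Fintype.card_subtype]
  have hcard' : Fintype.card {k // p k} = (univ.filter fun k => p k).card :=
    Fintype.card_subtype p
  obtain ⟨t, ht⟩ : ∃ t, t = (univ.filter fun k => p k).card := ⟨_, rfl⟩
  obtain ⟨m, hm⟩ : ∃ m, m = Fintype.card α := ⟨_, rfl⟩
  rw [← ht] at ht' hcard hcard' ⊢
  rw [← hm] at ht' hcard ⊢
  have htm : (t : ℝ) ≤ m := by exact_mod_cast ht'
  have ht0 : (0 : ℝ) ≤ t := by positivity
  have hD0 : (0 : ℝ) ≤ D := by positivity
  have hB0 : (0 : ℝ) ≤ B := by positivity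
  by_cases hbig : 64 * (D + B + 4) ≤ m - t
  · have key : ∀ σ : {k // p k} → Bool, ∑ τ' : {k // ¬ p k} → Bool,
        ((univ.filter fun k => (0 < G ((Equiv.piEquivPiSubtypeProd p (fun _ => Bool)).symm
          (σ, τ')) k ↔ (Equiv.piEquivPiSubtypeProd p (fun _ => Bool)).symm (σ, τ') k =
            true)).card : ℝ) ≤ 2 ^ (m - t) * (t + 76 / 100 * ((m - t : ℕ) : ℝ)) := by
      intro σ
      set e := Equiv.piEquivPiSubtypeProd p (fun _ => Bool) with he
      have he1 : ∀ (τ' : {k // ¬ p k} → Bool) (k : α) (hk : p k), e.symm (σ, τ') k = σ ⟨k, hk⟩ := by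
        intro τ' k hk
        simp [he, Equiv.piEquivPiSubtypeProd, hk]
      have he2 : ∀ (τ' : {k // ¬ p k} → Bool) (k : {k // ¬ p k}), e.symm (σ, τ') k.1 = τ' k := by
        intro τ' k
        simp [he, Equiv.piEquivPiSubtypeProd, k.2]
      let v : Λ → Option (Option (Option (Fin D))) → ({k // ¬ p k} → ℝ) := fun j o => match o with
        | none => fun k => U (e.symm (σ, fun _ => false)) k.1
        | some none => fun _ => 1
        | some (some none) => fun k => ψ j k.1
        | some (some (some l)) => fun k => φ l k.1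
      let L : Λ → Submodule ℝ ({k // ¬ p k} → ℝ) := fun j => Submodule.span ℝ (Set.range (v j))
      have hL : ∀ j, Module.finrank ℝ (L j) ≤ D + 3 := by
        intro j
        refine (finrank_range_le_card (v j)).trans ?_
        simp
      have hmem : ∀ τ' : {k // ¬ p k} → Bool, ∃ j,
          (fun k : {k // ¬ p k} => G (e.symm (σ, τ')) k.1) ∈ L j := by
        intro τ'
        refine ⟨b (e.symm (σ, τ')), ?_⟩
        have h1 : U (e.symm (σ, τ')) = U (e.symm (σ, fun _ => false)) :=
          hU _ _ fun k hk => by rw [he1 _ k hk, he1 _ k hk]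
        have h2 : (fun k : {k // ¬ p k} => G (e.symm (σ, τ')) k.1) =
            (c (e.symm (σ, τ'))) • v (b (e.symm (σ, τ'))) (some none) +
              ∑ l, d (e.symm (σ, τ')) l • v (b (e.symm (σ, τ'))) (some (some (some l))) +
              v (b (e.symm (σ, τ'))) (some (some none)) + v (b (e.symm (σ, τ'))) none := by
          funext k
          simp only [Pi.add_apply, Pi.smul_apply, Finset.sum_apply, smul_eq_mul]
          rw [hG, h1]
          simp only [v, mul_one]
        rw [h2]
        have hb : ∀ j o, v j o ∈ L j := fun j o => Submodule.subset_span (Set.mem_range_self o)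
        exact add_mem (add_mem (add_mem (Submodule.smul_mem _ _ (hb _ (some none)))
          (sum_mem fun l _ => Submodule.smul_mem _ _ (hb _ (some (some (some l))))))
          (hb _ (some (some none)))) (hb _ none)
      have h3 := hag (β := {k // ¬ p k}) (D + 3) B (by rw [hcard]; omega) hΛ L hL
        (fun τ' k => G (e.symm (σ, τ')) k.1) hmem
      rw [hcard] at h3
      calc ∑ τ' : {k // ¬ p k} → Bool,
            ((univ.filter fun k => (0 < G (e.symm (σ, τ')) k ↔ e.symm (σ, τ') k =
              true)).card : ℝ)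
          ≤ ∑ τ' : {k // ¬ p k} → Bool, ((t : ℝ) +
            ((univ.filter fun k : {k // ¬ p k} => (0 < G (e.symm (σ, τ')) k.1 ↔
              τ' k = true)).card : ℝ)) := by
            refine sum_le_sum fun τ' _ => ?_
            have h4 := card_split p (fun k => (0 < G (e.symm (σ, τ')) k ↔
              e.symm (σ, τ') k = true))
            rw [← ht] at h4
            have h5 : (univ.filter fun k : {k // ¬ p k} => (0 < G (e.symm (σ, τ')) k.1 ↔
                e.symm (σ, τ') k.1 = true)) = (univ.filter fun k : {k // ¬ p k} =>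
                  (0 < G (e.symm (σ, τ')) k.1 ↔ τ' k = true)) := by
              refine filter_congr fun k _ => ?_
              rw [he2]
            rw [h5] at h4
            exact_mod_cast h4
        _ = 2 ^ (m - t) * (t : ℝ) + ∑ τ' : {k // ¬ p k} → Bool,
            ((univ.filter fun k : {k // ¬ p k} => (0 < G (e.symm (σ, τ')) k.1 ↔
              τ' k = true)).card : ℝ) := by
            rw [sum_add_distrib, sum_const, card_univ, Fintype.card_fun, Fintype.card_bool, hcard,
              nsmul_eq_mul]
            push_cast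
            ring
        _ ≤ 2 ^ (m - t) * (t : ℝ) + 76 / 100 * ((m - t : ℕ) : ℝ) * 2 ^ (m - t) := by
            linarith
        _ = _ := by ring
    rw [← (Equiv.piEquivPiSubtypeProd p (fun _ => Bool)).symm.sum_comp, Fintype.sum_prod_type]
    calc _ ≤ ∑ _σ : {k // p k} → Bool, (2 : ℝ) ^ (m - t) * (t + 76 / 100 * ((m - t : ℕ) : ℝ)) :=
          sum_le_sum fun σ _ => key σ
      _ = 2 ^ t * ((2 : ℝ) ^ (m - t) * (t + 76 / 100 * ((m - t : ℕ) : ℝ))) := by
          rw [sum_const, card_univ, Fintype.card_fun, Fintype.card_bool, hcard', nsmul_eq_mul]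
          push_cast
          ring
      _ = 2 ^ m * (t + 76 / 100 * ((m - t : ℕ) : ℝ)) := by
          rw [← mul_assoc, ← pow_add, Nat.add_sub_cancel' ht']
      _ ≤ _ := by
          refine mul_le_mul_of_nonneg_left ?_ (by positivity)
          rw [Nat.cast_sub ht']
          linarith
  · have h1 : (m : ℝ) < t + 64 * (D + B + 4) := by
      have : m < t + 64 * (D + B + 4) := by omega
      exact_mod_cast this
    calc ∑ τ : α → Bool, ((univ.filter fun k => (0 < G τ k ↔ τ k = true)).card : ℝ)
        ≤ ∑ _τ : α → Bool, (m : ℝ) := by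
          refine sum_le_sum fun τ _ => ?_
          have h2 : (univ.filter fun k => (0 < G τ k ↔ τ k = true)).card ≤ m := by
            rw [hm]
            exact card_le_univ _
          exact_mod_cast h2
      _ = 2 ^ m * (m : ℝ) := by
          rw [sum_const, card_univ, Fintype.card_fun, Fintype.card_bool, ← hm, nsmul_eq_mul]
          push_cast
          ring
      _ ≤ _ := by
          refine mul_le_mul_of_nonneg_left ?_ (by positivity)
          linarith

end Pool.Agent.Helper56.MP2
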